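import Pool.Agent.Lib.MP_6bc78b_nt.MS.P5.Iface
import Pool.Agent.Lib.MP_6bc78b_nt.MS.P4.H93.Fin2

/-! Project MS, Part V, module FINK: the final statement of Part V. -/

set_option autoImplicit false

open Complex Filter Topology MeasureTheory ArithmeticFunction

namespace Pool.Agent.Lib.MP_6bc78b_nt.MS.P5.H40

open Pool.Agent.Lib.MP_6bc78b_nt.MS.P4.H93

/-- absorbing `C^m` -/
theorem absorb (C ε : ℝ) (hC : 0 < C) (hε : 0 < ε) : ∃ C3 : ℝ, 0 < C3 ∧ ∀ m : ℕ, 1 ≤ m →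
    C ^ m * (m : ℝ) ^ (-(1 - ε / 2) * (m : ℝ)) ≤ C3 * (m : ℝ) ^ (-(1 - ε) * (m : ℝ)) := by
  obtain ⟨M, hM⟩ := exists_nat_ge (C ^ (2 / ε))
  refine ⟨(max 1 C) ^ M, by positivity, fun m hm => ?_⟩
  have hm1 : (1 : ℝ) ≤ m := by exact_mod_cast hm
  have hm0 : (0 : ℝ) < m := by linarith
  have hsplit : (m : ℝ) ^ (-(1 - ε / 2) * (m : ℝ)) =
      (m : ℝ) ^ (-(ε / 2) * (m : ℝ)) * (m : ℝ) ^ (-(1 - ε) * (m : ℝ)) := by
    rw [← Real.rpow_add hm0]
    congr 1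
    ring
  rw [hsplit, ← mul_assoc]
  apply mul_le_mul_of_nonneg_right _ (Real.rpow_nonneg hm0.le _)
  have hone : (1 : ℝ) ≤ max 1 C := le_max_left _ _
  have hP : (m : ℝ) ^ (-(ε / 2) * (m : ℝ)) ≤ 1 := by
    apply Real.rpow_le_one_of_one_le_of_nonpos hm1
    have : 0 ≤ (ε / 2) * (m : ℝ) := by positivity
    linarith
  rcases le_or_gt M m with h | h
  · -- large `m`
    have h1 : C ≤ (m : ℝ) ^ (ε / 2) := by
      have h2 : C ^ (2 / ε) ≤ (m : ℝ) := hM.trans (by exact_mod_cast h)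
      have h3 : (C ^ (2 / ε)) ^ (ε / 2) ≤ (m : ℝ) ^ (ε / 2) :=
        Real.rpow_le_rpow (Real.rpow_nonneg hC.le _) h2 (by positivity)
      have h4 : (C ^ (2 / ε)) ^ (ε / 2) = C := by
        rw [← Real.rpow_mul hC.le]
        have : 2 / ε * (ε / 2) = 1 := by field_simp
        rw [this, Real.rpow_one]
      rwa [h4] at h3
    have h5 : C ^ m ≤ (m : ℝ) ^ (ε / 2 * (m : ℝ)) := by
      rw [Real.rpow_mul hm0.le, Real.rpow_natCast]
      exact pow_le_pow_left₀ hC.le h1 m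
    calc C ^ m * (m : ℝ) ^ (-(ε / 2) * (m : ℝ))
        ≤ (m : ℝ) ^ (ε / 2 * (m : ℝ)) * (m : ℝ) ^ (-(ε / 2) * (m : ℝ)) :=
          mul_le_mul_of_nonneg_right h5 (Real.rpow_nonneg hm0.le _)
      _ = 1 := by
          rw [← Real.rpow_add hm0]
          have : ε / 2 * (m : ℝ) + -(ε / 2) * (m : ℝ) = 0 := by ring
          rw [this, Real.rpow_zero]
      _ ≤ (max 1 C) ^ M := one_le_pow₀ hone
  · calc C ^ m * (m : ℝ) ^ (-(ε / 2) * (m : ℝ)) ≤ C ^ m * 1 :=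
          mul_le_mul_of_nonneg_left hP (by positivity)
      _ = C ^ m := mul_one _
      _ ≤ (max 1 C) ^ m := pow_le_pow_left₀ hC.le (le_max_right _ _) m
      _ ≤ (max 1 C) ^ M := pow_le_pow_right₀ hone h.le

theorem fink (hD : DevStatement) (hC : CntStatement) (hN : NasStatement) (hZ : ZfacStatement) :
    FinkStatement := by
  intro ε hε0 hε1
  obtain ⟨C1, T1, hC1, hT1, hdev⟩ := hD (ε / 2) (by linarith) (by linarith)
  obtain ⟨C2, hC2, hcnt⟩ := hC T1 hT1.le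
  obtain ⟨C3, hC3, habs⟩ := absorb C1 ε hC1 hε0
  -- the zeros up to `T1`
  have hfin : {γ : ℝ | 0 < γ ∧ γ ≤ T1 ∧ riemannZeta (1 / 2 + γ * I) = 0}.Finite :=
    hZ.2.2.2.2.2.1 T1
  obtain ⟨M0, hM0⟩ : ∃ M0 : ℕ, ∀ γ ∈ {γ : ℝ | 0 < γ ∧ γ ≤ T1 ∧
      riemannZeta (1 / 2 + γ * I) = 0}, mz γ ≤ M0 := by
    obtain ⟨M0, h⟩ := (hfin.image mz).bddAbove
    exact ⟨M0, fun γ hγ => h ⟨γ, hγ, rfl⟩⟩
  have hNbnn : ∀ m X, 0 ≤ Nb (bk m) X := by
    intro m X
    exact finsum_nonneg fun γ => finsum_nonneg fun _ => bk_nonneg m γ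
  have hNb0 : ∀ m : ℕ, M0 < m → Nb (bk m) T1 = 0 := by
    intro m hm
    unfold Nb
    rw [finsum_mem_congr rfl (g := fun _ => (0 : ℝ)), finsum_mem_zero]
    intro γ hγ
    unfold bk
    rw [if_neg]
    rintro ⟨-, h⟩
    have := hM0 γ hγ
    omega
  set C4 : ℝ := ∑ m ∈ Finset.Icc 1 M0, Nb (bk m) T1 / (m : ℝ) ^ (-(1 - ε) * (m : ℝ)) with hC4
  have hppos : ∀ m : ℕ, 1 ≤ m → 0 < (m : ℝ) ^ (-(1 - ε) * (m : ℝ)) := fun m hm =>
    Real.rpow_pos_of_pos (by exact_mod_cast hm) _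
  have hC4' : ∀ m : ℕ, 1 ≤ m → Nb (bk m) T1 ≤ C4 * (m : ℝ) ^ (-(1 - ε) * (m : ℝ)) := by
    intro m hm
    have hnn : ∀ i ∈ Finset.Icc 1 M0, 0 ≤ Nb (bk i) T1 / (i : ℝ) ^ (-(1 - ε) * (i : ℝ)) := by
      intro i hi
      exact div_nonneg (hNbnn i T1) (hppos i (Finset.mem_Icc.1 hi).1).le
    by_cases h : m ≤ M0
    · rw [← div_le_iff₀ (hppos m hm)]
      exact Finset.single_le_sum hnn (Finset.mem_Icc.2 ⟨hm, h⟩)
    · rw [hNb0 m (by omega)]
      exact mul_nonneg (Finset.sum_nonneg hnn) (hppos m hm).le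
  have hC4nn : 0 ≤ C4 := Finset.sum_nonneg fun i hi =>
    div_nonneg (hNbnn i T1) (hppos i (Finset.mem_Icc.1 hi).1).le
  -- asymptotics
  have hbig : ∀ᶠ X : ℝ in atTop, X * Real.log X ≤ 4 * Real.pi * NZ X ∧ 1 ≤ NZ X := by
    have h1 : ∀ᶠ X : ℝ in atTop,
        1 / 2 < Nb (fun γ => (mz γ : ℝ)) X / (X * Real.log X / (2 * Real.pi)) :=
      hN.eventually_const_lt (by norm_num)
    filter_upwards [h1, eventually_ge_atTop (Real.exp 1), eventually_ge_atTop (4 * Real.pi)]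
      with X hX hXe hXpi
    have hX0 : 0 < X := (Real.exp_pos 1).trans_le hXe
    have hlog : 1 ≤ Real.log X := (Real.le_log_iff_exp_le hX0).2 hXe
    have hpi := Real.pi_pos
    have hpos : 0 < X * Real.log X / (2 * Real.pi) := by positivity
    rw [lt_div_iff₀ hpos, Nb_mz hZ] at hX
    have h2 : X * Real.log X ≤ 4 * Real.pi * NZ X := by
      have h3 : 1 / 2 * (X * Real.log X / (2 * Real.pi)) * (4 * Real.pi) = X * Real.log X := by
        field_simp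
        ring
      have h4 := mul_le_mul_of_nonneg_right hX.le (by positivity : (0 : ℝ) ≤ 4 * Real.pi)
      linarith
    refine ⟨h2, ?_⟩
    have h5 : X ≤ X * Real.log X := by nlinarith
    have h6 : 4 * Real.pi * 1 ≤ 4 * Real.pi * NZ X := by linarith
    exact le_of_mul_le_mul_left h6 (by positivity)
  obtain ⟨T2, hT2⟩ := eventually_atTop.1 hbig
  refine ⟨C4 + C2 * C3 * (4 * Real.pi), max T1 T2, fun T m hT hm => ?_⟩
  have hTT1 : T1 ≤ T := (le_max_left _ _).trans hT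
  obtain ⟨hl, hN1⟩ := hT2 T ((le_max_right _ _).trans hT)
  set κ : ℝ := C1 ^ m * (m : ℝ) ^ (-(1 - ε / 2) * (m : ℝ)) with hκ
  have hm0 : (0 : ℝ) ≤ m := Nat.cast_nonneg m
  have hκ0 : 0 ≤ κ := mul_nonneg (pow_nonneg hC1.le _) (Real.rpow_nonneg hm0 _)
  have h1 := hcnt (bk m) κ (bk_nonneg m) hκ0 (fun X hX => by
    rw [sum_bk]
    have := hdev X m hX hm
    calc _ ≤ _ := this
      _ = κ * (cG X * Real.log X) := by rw [hκ]; ring) T hTT1
  rw [Nb_bk hZ m T] at h1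
  set P : ℝ := (m : ℝ) ^ (-(1 - ε) * (m : ℝ)) with hP
  have hP0 : 0 < P := hppos m hm
  have hκP : κ ≤ C3 * P := habs m hm
  have h2 : Nb (bk m) T1 ≤ C4 * P * NZ T := by
    calc Nb (bk m) T1 ≤ C4 * P := hC4' m hm
      _ = C4 * P * 1 := (mul_one _).symm
      _ ≤ C4 * P * NZ T := mul_le_mul_of_nonneg_left hN1 (by positivity)
  have h3 : C2 * κ * (T * Real.log T) ≤ C2 * (C3 * P) * (4 * Real.pi * NZ T) := by
    have hTl : 0 ≤ T * Real.log T := by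
      have : 1 < T := by linarith
      have := Real.log_pos this
      positivity
    calc C2 * κ * (T * Real.log T) ≤ C2 * (C3 * P) * (T * Real.log T) := by
          apply mul_le_mul_of_nonneg_right _ hTl
          exact mul_le_mul_of_nonneg_left hκP hC2.le
      _ ≤ C2 * (C3 * P) * (4 * Real.pi * NZ T) := mul_le_mul_of_nonneg_left hl (by positivity)
  calc NZm m T ≤ Nb (bk m) T1 + C2 * κ * (T * Real.log T) := h1
    _ ≤ C4 * P * NZ T + C2 * (C3 * P) * (4 * Real.pi * NZ T) := add_le_add h2 h3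
    _ = (C4 + C2 * C3 * (4 * Real.pi)) * P * NZ T := by ring

end Pool.Agent.Lib.MP_6bc78b_nt.MS.P5.H40
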